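import Mathlib
import Pool.Agent.Helpers.RMinBasis

set_option autoImplicit false

namespace Pool.Agent.Results.MP_f804be_nt.RMinimalBases

/-- `A` is an asymptotic basis of order `h`: every sufficiently large natural number is a sum of
`h` elements of `A`, repetitions allowed. -/
def IsAsymptoticBasis (h : ℕ) (A : Set ℕ) : Prop :=
  ∃ n₀ : ℕ, ∀ n : ℕ, n₀ ≤ n → ∃ f : Fin h → ℕ, (∀ i, f i ∈ A) ∧ ∑ i, f i = n

/-- `A` is an `r`-minimal asymptotic basis of order `h`: for every subset `S` of `A`, the set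
`A \ S` is an asymptotic basis of order `h` if and only if `S` has fewer than `r` elements. -/
def IsRMinimalBasis (r h : ℕ) (A : Set ℕ) : Prop :=
  ∀ S : Set ℕ, S ⊆ A → (IsAsymptoticBasis h (A \ S) ↔ S.encard < r)

/-- For all `h ≥ 3` and `r ≥ 1` there is an `r`-minimal asymptotic basis of order `h`. -/
theorem result : ∀ h r : ℕ, 3 ≤ h → 1 ≤ r → ∃ A : Set ℕ, IsRMinimalBasis r h A := by
  intro h r hh _
  exact Pool.Agent.Helpers.RMinBasis.main h r hh

end Pool.Agent.Results.MP_f804be_nt.RMinimalBases
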